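import Pool.Agent.KS6_69.UF.Base

/-!
# Exact pairs of subsets under inner and outer automorphisms

The simple group of order 25920 with the subsets `A`, `B` of an earlier run. The pair stays exact when `A`
is replaced by its image under any automorphism in a group of automorphisms which contains
all inner automorphisms and an outer one.
-/

set_option autoImplicit false

namespace Pool.Agent.Results.MP_b5696c_al.AllKnownAutomorphisms

open Pool.Agent.KS6_69.UF

/-- Permutations preserving the relation that the transvection of centre `p` fixes `q`. -/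
def Pres (s : P40) : Prop := ∀ p q, tr (s p) (s q) = s q ↔ tr p q = q

lemma pres_of_mem {g : P40} (hg : g ∈ G) : Pres g := fun p q => adj_iff hg p q

lemma key_conj' {s : P40} (hs : Pres s) (σ : P40) : key (s * σ * s⁻¹) = key σ := by
  have hgi : ∀ i, s⁻¹ (s i) = i := fun i => by simp
  have e1 : i1 σ = i1 (s * σ * s⁻¹) := by
    apply Finset.card_equiv s
    intro i
    rw [Finset.mem_filter, Finset.mem_filter]
    simp only [Finset.mem_univ, true_and, Equiv.Perm.mul_apply, hgi, s.injective.eq_iff]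
  have e2 : i2 σ = i2 (s * σ * s⁻¹) := by
    apply Finset.card_equiv s
    intro i
    rw [Finset.mem_filter, Finset.mem_filter]
    simp only [Finset.mem_univ, true_and, Equiv.Perm.mul_apply, hgi]
    exact (hs _ _).symm
  have e3 : i3 σ = i3 (s * σ * s⁻¹) := by
    apply Finset.card_equiv s
    intro i
    rw [Finset.mem_filter, Finset.mem_filter]
    simp only [Finset.mem_univ, true_and, Equiv.Perm.mul_apply, hgi, s.injective.eq_iff]
  rw [key, key, e1, e2, e3]

/-- An element of `A`. -/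
def elA (x : GK × Fin 4) : G := ⟨(x.1 : P40) * RX x.2, G.mul_mem (GK_le x.1.2) (RX_mem _)⟩

/-- An element of `B`. -/
def elB (x : GH × Fin 4) : G := ⟨(x.1 : P40) * RY x.2, G.mul_mem (GH_le x.1.2) (RY_mem _)⟩

lemma elA_inj : Function.Injective elA := by
  rintro ⟨a, i⟩ ⟨a', i'⟩ h
  have h' : (a' : P40) * RX i' = (a : P40) * RX i := (congrArg (fun x : G => (x : P40)) h).symm
  obtain ⟨u1, u2⟩ := uniq coverK sepX a.2 a'.2 h'
  subst u2
  have : a' = a := Subtype.ext u1
  rw [this]

lemma elB_inj : Function.Injective elB := by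
  rintro ⟨a, i⟩ ⟨a', i'⟩ h
  have h' : (a' : P40) * RY i' = (a : P40) * RY i := (congrArg (fun x : G => (x : P40)) h).symm
  obtain ⟨u1, u2⟩ := uniq coverH sepY a.2 a'.2 h'
  subst u2
  have : a' = a := Subtype.ext u1
  rw [this]

lemma setA_eq : setA = Set.range elA := by
  ext x
  constructor
  · rintro ⟨π, hπ, i, h⟩
    exact ⟨(⟨π, hπ⟩, i), Subtype.ext h.symm⟩
  · rintro ⟨⟨π, i⟩, rfl⟩
    exact ⟨π, π.2, i, rfl⟩

lemma setB_eq : setB = Set.range elB := by
  ext x
  constructor
  · rintro ⟨π, hπ, i, h⟩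
    exact ⟨(⟨π, hπ⟩, i), Subtype.ext h.symm⟩
  · rintro ⟨⟨π, i⟩, rfl⟩
    exact ⟨π, π.2, i, rfl⟩

/-- The product map attached to an automorphism. -/
def psi (α : MulAut G) (x : (GK × Fin 4) × (GH × Fin 4)) : G := (α (elA x.1))⁻¹ * elB x.2

/-- The automorphism `α` is induced by a permutation in `Pres`. -/
def Induced (α : MulAut G) : Prop := ∃ s : P40, Pres s ∧ ∀ x : G, ((α x : G) : P40) = s * x * s⁻¹

lemma psi_inj (α : MulAut G) (hα : Induced α) : Function.Injective (psi α) := by
  obtain ⟨s, hs, hα⟩ := hα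
  rintro ⟨x, y⟩ ⟨x', y'⟩ h
  have h1 : α (elA x' * (elA x)⁻¹) = elB y' * (elB y)⁻¹ := by
    have h2 : (α (elA x))⁻¹ * elB y = (α (elA x'))⁻¹ * elB y' := h
    rw [map_mul, map_inv]
    calc α (elA x') * (α (elA x))⁻¹ = α (elA x') * ((α (elA x))⁻¹ * elB y) * (elB y)⁻¹ := by group
      _ = _ := by rw [h2]; group
  have e : s * ((elA x' : P40) * (elA x : P40)⁻¹) * s⁻¹ = (elB y' : P40) * (elB y : P40)⁻¹ := by
    have := congrArg (fun x : G => (x : P40)) h1
    simp only [hα] at this
    exact this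
  have qa := quot_key GK_le RX keysX keyX x.1.2 x'.1.2 x.2 x'.2
  have qb := quot_key GH_le RY keysY keyY y.1.2 y'.1.2 y.2 y'.2
  have hab : elA x' = elA x ∧ elB y' = elB y := by
    rcases qa with qa | qa
    · have ea : elA x' = elA x := Subtype.ext qa
      refine ⟨ea, ?_⟩
      rw [ea, mul_inv_cancel, map_one] at h1
      exact (mul_inv_eq_one.1 h1.symm)
    · exfalso
      rcases qb with qb | qb
      · have eb : elB y' = elB y := Subtype.ext qb
        rw [eb, mul_inv_cancel] at h1
        have h2 : elA x' * (elA x)⁻¹ = 1 := by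
          apply α.injective
          rw [h1, map_one]
        have h3 : (x'.1 : P40) * RX x'.2 * ((x.1 : P40) * RX x.2)⁻¹ = 1 :=
          congrArg (fun x : G => (x : P40)) h2
        rw [h3] at qa
        have h1 : key (1 : P40) ∉ keysX := by decide +kernel
        exact h1 qa
      · have e' : s * ((x'.1 : P40) * RX x'.2 * ((x.1 : P40) * RX x.2)⁻¹) * s⁻¹ =
            (y'.1 : P40) * RY y'.2 * ((y.1 : P40) * RY y.2)⁻¹ := e
        rw [← e', key_conj' hs] at qb
        exact keys_disj _ qa qb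
  rw [elA_inj hab.1, elB_inj hab.2]

lemma psi_surj (α : MulAut G) (hα : Induced α) : Function.Surjective (psi α) := by
  have hc : Nat.card G ≤ Nat.card ((GK × Fin 4) × (GH × Fin 4)) := by
    rw [Nat.card_prod, Nat.card_prod, Nat.card_prod, Nat.card_fin]
    calc Nat.card G ≤ 27 * 4 * (60 * 4) := card_G_le
      _ ≤ _ := Nat.mul_le_mul (Nat.mul_le_mul_right 4 cardK) (Nat.mul_le_mul_right 4 cardH)
  exact ((psi_inj α hα).bijective_of_nat_card_le hc).2

lemma exact_aut (α : MulAut G) (hα : Induced α) (h : G) :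
    Set.ncard ((fun a => α a * h) '' setA ∩ setB) = 1 := by
  rw [Set.ncard_eq_one, setA_eq, setB_eq]
  obtain ⟨⟨x, y⟩, hx⟩ := psi_surj α hα h
  refine ⟨elB y, ?_⟩
  ext z
  constructor
  · rintro ⟨⟨_, ⟨x', rfl⟩, hz⟩, ⟨y', rfl⟩⟩
    have e : psi α (x', y') = h := by
      show (α (elA x'))⁻¹ * elB y' = h
      rw [← hz]; simp
    rw [← hx] at e
    have := congrArg Prod.snd (psi_inj α hα e)
    simp only at this
    rw [this]; rfl
  · intro hz
    rw [Set.mem_singleton_iff] at hz
    subst hz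
    refine ⟨⟨elA x, ⟨x, rfl⟩, ?_⟩, ⟨y, rfl⟩⟩
    have hx' : (α (elA x))⁻¹ * elB y = h := hx
    show α (elA x) * h = elB y
    rw [← hx']; group

/-- The images of the forty points under an involutory outer symmetry. -/
def NS : Nat := 0x6552ca51a7c084f5850e29d11dd9a304660d7894029643845d27086cc4e0

theorem chkS1 : allN (fun q => Nat.blt (ev NS q) 40 && Nat.beq (ev NS (ev NS q)) q) 40 = true := by
  decide +kernel

theorem chkS2 : allN (fun p => allN (fun q =>
    Nat.beq (ev NS (tf p q)) (tf (ev NS p) (tf (ev NS p) (ev NS q)))) 40) 40 = true := by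
  decide +kernel

theorem chkS3 : allN (fun p => allN (fun q =>
    !(allN (fun x => Nat.beq (tf p x) (tf q (tf q x))) 40)) 40) 40 = true := by
  decide +kernel

lemma NS_lt (q : Fin 40) : ev NS q < 40 := by
  have h := (allN_iff _ _).1 chkS1 q q.2
  simp only [Bool.and_eq_true, Nat.blt_eq, Nat.beq_eq] at h
  exact h.1

lemma NS_inv (q : Fin 40) : ev NS (ev NS q) = q := by
  have h := (allN_iff _ _).1 chkS1 q q.2
  simp only [Bool.and_eq_true, Nat.blt_eq, Nat.beq_eq] at h
  exact h.2

/-- The outer symmetry. -/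
def S : P40 where
  toFun q := ⟨ev NS q, NS_lt q⟩
  invFun q := ⟨ev NS q, NS_lt q⟩
  left_inv q := Fin.ext (NS_inv q)
  right_inv q := Fin.ext (NS_inv q)

lemma S_tr (p q : Fin 40) : S (tr p q) = tr (S p) (tr (S p) (S q)) := by
  apply Fin.ext
  have h := (allN_iff _ _).1 ((allN_iff _ _).1 chkS2 p p.2) q q.2
  rw [Nat.beq_eq] at h
  exact h

lemma tr_cube (p q : Fin 40) : tr p (tr p (tr p q)) = q := Fin.ext (tf_cube p q)

lemma pres_S : Pres S := by
  intro p q
  constructor
  · intro h
    apply S.injective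
    rw [S_tr, h, h]
  · intro h
    have h1 : tr (S p) (tr (S p) (S q)) = S q := by rw [← S_tr, h]
    have h2 := tr_cube (S p) (S q)
    rw [h1] at h2
    exact h2

lemma S_conj (p : Fin 40) : S * tr p * S⁻¹ = tr (S p) * tr (S p) := by
  ext q
  have : S * tr p * S⁻¹ = tr (S p) * tr (S p) := by
    rw [mul_inv_eq_iff_eq_mul]
    apply Equiv.ext
    intro q
    exact S_tr p q
  rw [this]

lemma S_norm {x : P40} (hx : x ∈ G) : S * x * S⁻¹ ∈ G := by
  induction hx using Subgroup.closure_induction with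
  | mem x hx =>
    obtain ⟨p, rfl⟩ := hx
    rw [S_conj]
    exact G.mul_mem (tr_mem _) (tr_mem _)
  | one => simp
  | mul x y _ _ hx hy =>
    have : S * (x * y) * S⁻¹ = (S * x * S⁻¹) * (S * y * S⁻¹) := by group
    rw [this]
    exact G.mul_mem hx hy
  | inv x _ hx =>
    have : S * x⁻¹ * S⁻¹ = (S * x * S⁻¹)⁻¹ := by group
    rw [this]
    exact G.inv_mem hx

lemma S_sq : S * S = 1 := by
  have : S⁻¹ = S := rfl
  nth_rewrite 2 [← this]
  exact mul_inv_cancel S

lemma S_S (x : P40) : S * (S * x * S⁻¹) * S⁻¹ = x := by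
  calc S * (S * x * S⁻¹) * S⁻¹ = (S * S) * x * (S * S)⁻¹ := by group
    _ = x := by rw [S_sq]; simp

/-- The outer automorphism. -/
def outer : MulAut G where
  toFun x := ⟨S * x * S⁻¹, S_norm x.2⟩
  invFun x := ⟨S * x * S⁻¹, S_norm x.2⟩
  left_inv x := Subtype.ext (S_S x)
  right_inv x := Subtype.ext (S_S x)
  map_mul' x y := Subtype.ext (by
    show S * ((x : P40) * y) * S⁻¹ = (S * x * S⁻¹) * (S * y * S⁻¹)
    group)

lemma outer_not_inner (g : G) : outer ≠ MulAut.conj g := by
  intro h
  have h1 : ((outer ⟨tr 0, tr_mem 0⟩ : G) : P40) = ((MulAut.conj g ⟨tr 0, tr_mem 0⟩ : G) : P40) := by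
    rw [h]
  have h2 : ((outer ⟨tr 0, tr_mem 0⟩ : G) : P40) = tr (S 0) * tr (S 0) := S_conj 0
  have h3 : ((MulAut.conj g ⟨tr 0, tr_mem 0⟩ : G) : P40) = tr ((g : P40) 0) := by
    show (g : P40) * tr 0 * (g : P40)⁻¹ = _
    rw [conj_tr g.2]; group
  rw [h2, h3] at h1
  have h4 := (allN_iff _ _).1 ((allN_iff _ _).1 chkS3 ((g : P40) 0) ((g : P40) 0).2) (S 0) (S 0).2
  have h5 : allN (fun x => Nat.beq (tf ((g : P40) 0) x) (tf (S 0) (tf (S 0) x))) 40 = true := by
    rw [allN_iff]
    intro x hx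
    have := congrArg (fun σ : P40 => (σ ⟨x, hx⟩ : Nat)) h1
    simp only [Equiv.Perm.mul_apply] at this
    rw [Nat.beq_eq]
    exact this.symm
  rw [h5] at h4
  exact absurd h4 (by decide)

/-- The automorphisms induced by permutations in `Pres`. -/
def AA : Subgroup (MulAut G) where
  carrier := {α | Induced α}
  one_mem' := ⟨1, fun p q => Iff.rfl, fun x => by simp⟩
  mul_mem' := by
    rintro α β ⟨s, hs, h1⟩ ⟨t, ht, h2⟩
    refine ⟨s * t, fun p q => ?_, fun x => ?_⟩
    · rw [Equiv.Perm.mul_apply, Equiv.Perm.mul_apply, hs, ht]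
    · rw [MulAut.mul_apply, h1, h2]; group
  inv_mem' := by
    rintro α ⟨s, hs, h1⟩
    refine ⟨s⁻¹, fun p q => ?_, fun x => ?_⟩
    · have := hs (s⁻¹ p) (s⁻¹ q)
      simpa using this.symm
    · have := h1 (α⁻¹ x)
      rw [MulAut.apply_inv_self] at this
      rw [this]; group

/-- There are a finite simple group `G` of order 25920 and subsets `A`, `B` with 108 and 240 elements,
neither a coset of a subgroup, and a group `𝒜` of automorphisms of `G` that contains all inner
automorphisms and some automorphism that is not inner, such that for every `α` in `𝒜` and every `h`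
the set `α(A) h` meets `B` in exactly one element. In particular `g⁻¹ A h` meets `B` in exactly one
element for all `g`, `h`. -/
theorem result :
    ∃ (G : Type) (_ : Group G), Nat.card G = 25920 ∧ IsSimpleGroup G ∧
      ∃ A B : Set G, A.ncard = 108 ∧ B.ncard = 240 ∧
        (¬ ∃ H : Subgroup G, ∃ x : G, A = (fun y => x * y) '' (H : Set G)) ∧
        (¬ ∃ H : Subgroup G, ∃ x : G, B = (fun y => x * y) '' (H : Set G)) ∧
        (∀ g h : G, Set.ncard ((fun a => g⁻¹ * a * h) '' A ∩ B) = 1) ∧
        ∃ 𝒜 : Subgroup (MulAut G), (∀ g : G, MulAut.conj g ∈ 𝒜) ∧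
          (∃ α ∈ 𝒜, ∀ g : G, α ≠ MulAut.conj g) ∧
          ∀ α ∈ 𝒜, ∀ h : G, Set.ncard ((fun a => α a * h) '' A ∩ B) = 1 := by
  have hone : Induced 1 := AA.one_mem
  have hcard : Nat.card G = Nat.card ((GK × Fin 4) × (GH × Fin 4)) :=
    (Nat.card_congr (Equiv.ofBijective _ ⟨psi_inj 1 hone, psi_surj 1 hone⟩)).symm
  rw [Nat.card_prod, Nat.card_prod, Nat.card_prod, Nat.card_fin] at hcard
  have hle := card_G_le
  have hK := cardK
  have hH := cardH
  have hK' : Nat.card GK = 27 := by nlinarith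
  have hH' : Nat.card GH = 60 := by nlinarith
  have hG : Nat.card G = 25920 := by rw [hcard, hK', hH']
  have hA : setA.ncard = 108 := by
    rw [setA_eq, ← Set.image_univ, Set.ncard_image_of_injective _ elA_inj, Set.ncard_univ,
      Nat.card_prod, Nat.card_fin, hK']
  have hB : setB.ncard = 240 := by
    rw [setB_eq, ← Set.image_univ, Set.ncard_image_of_injective _ elB_inj, Set.ncard_univ,
      Nat.card_prod, Nat.card_fin, hH']
  refine ⟨G, inferInstance, hG, simpleG, setA, setB, hA, hB, notA, notB, exact_pair, AA, ?_, ?_, ?_⟩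
  · intro g
    exact ⟨g, pres_of_mem g.2, fun x => rfl⟩
  · exact ⟨outer, ⟨S, pres_S, fun x => rfl⟩, outer_not_inner⟩
  · intro α hα h
    exact exact_aut α hα h

end Pool.Agent.Results.MP_b5696c_al.AllKnownAutomorphisms
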